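import Pool.Graph.R_pool_sql_team_seeded_3997aac3.Q7.LK.All3
import Pool.Graph.R_pool_sql_team_seeded_3997aac3.Q7.LS.Main
import Pool.Graph.R_pool_sql_team_seeded_3997aac3.Q7.LS.Stm2
import Pool.Graph.R_pool_sql_team_seeded_3997aac3.Q7.GK.Main
import Pool.Graph.R_pool_sql_team_seeded_3997aac3.Q7.GK.Stm2
import Pool.Graph.R_pool_sql_team_seeded_3997aac3.Q265.EN.TRF
import Pool.Graph.R_pool_sql_team_seeded_3997aac3.Q176.LS.CR1S
import Pool.Graph.R_pool_sql_team_seeded_3997aac3.Q176.LS.AAN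
import Pool.Graph.R_pool_sql_team_seeded_3997aac3.Q79.LS.CR2S
import Pool.Graph.R_pool_sql_team_seeded_3997aac3.Q79.LS.BRG
import Pool.Graph.R_pool_sql_team_seeded_3997aac3.Q79.LS.LOGB
import Pool.Graph.R_pool_sql_team_seeded_3997aac3.Q252.LS.NSP
import Pool.Graph.R_pool_sql_team_seeded_3997aac3.Q252.LS.LCN
import Pool.Graph.R_pool_sql_team_seeded_3997aac3.Q190.LS.DEP
import Pool.Graph.R_pool_sql_team_seeded_3997aac3.Q190.LS.SUR
import Pool.Graph.R_pool_sql_team_seeded_3997aac3.Q26.LS.LOGA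
import Pool.Graph.R_pool_sql_team_seeded_3997aac3.Q113.LS.RKR
import Pool.Graph.R_pool_sql_team_seeded_3997aac3.Q124.LS.CLB
import Pool.Graph.R_pool_sql_team_seeded_3997aac3.Q151.LS.CTS
import Pool.Graph.R_pool_sql_team_seeded_3997aac3.Q151.LS.CUS
import Pool.Graph.R_pool_sql_team_seeded_3997aac3.Q181.LS.CLA
import Pool.Graph.R_pool_sql_team_seeded_3997aac3.Q223.LS.NSB
import Pool.Graph.R_pool_sql_team_seeded_3997aac3.Q224.LS.SH2N
import Pool.Graph.R_pool_sql_team_seeded_3997aac3.Q224.LS.SUMC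
import Pool.Graph.R_pool_sql_team_seeded_3997aac3.Q31.LS.MEANN
import Pool.Graph.R_pool_sql_team_seeded_3997aac3.Q77.LS.SPL
import Pool.Graph.R_pool_sql_team_seeded_3997aac3.Q94.LS.OUT
import Pool.Graph.R_pool_sql_team_seeded_3997aac3.Q176.GK.GQ
import Pool.Graph.R_pool_sql_team_seeded_3997aac3.Q16.GK.GN
import Pool.Graph.R_pool_sql_team_seeded_3997aac3.Q16.GK.GC
import Pool.Graph.R_pool_sql_team_seeded_3997aac3.Q16.GK.GS
import Pool.Graph.R_pool_sql_team_seeded_3997aac3.Q190.GK.GNUM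
import Pool.Graph.R_pool_sql_team_seeded_3997aac3.Q190.GK.GLCN
import Pool.Graph.R_pool_sql_team_seeded_3997aac3.Q18.GK.GBRG
import Pool.Graph.R_pool_sql_team_seeded_3997aac3.Q142.GK.GCLS
import Pool.Graph.R_pool_sql_team_seeded_3997aac3.Q142.GK.GCR1
import Pool.Graph.R_pool_sql_team_seeded_3997aac3.Q142.GK.GCR2
import Pool.Graph.R_pool_sql_team_seeded_3997aac3.Q139.GK.GRK
import Pool.Graph.R_pool_sql_team_seeded_3997aac3.Q162.GK.GFR
import Pool.Graph.R_pool_sql_team_seeded_3997aac3.Q177.GK.GFIN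
import Pool.Graph.R_pool_sql_team_seeded_3997aac3.Q129.GK.GAB
import Pool.Graph.R_pool_sql_team_seeded_3997aac3.Q153.GK.GAB1

set_option autoImplicit false

/-!
# Projects LS and GK (helper7, library run 3997aac3): all parts together (helper575)
-/

namespace Pool.Agent.H575.GK

open Pool.Agent.Q7.LK Pool.Agent.Q7.LS Pool.Agent.Q7.GK

theorem t_TRF : Pool.Agent.Q283.EN.S_TRF := Pool.Agent.Q265.EN.trf t_NEST t_SH1
theorem t_SUR : S_SUR := Pool.Agent.Q190.LS.sur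
theorem t_SPL : S_SPL := Pool.Agent.Q77.LS.spl t_CPL
theorem t_NSB : S_NSB := Pool.Agent.Q223.LS.nsb t_SUR t_SPL
theorem t_RKR : S_RKR := Pool.Agent.Q113.LS.rkr
theorem t_DEP : S_DEP := Pool.Agent.Q190.LS.dep
theorem t_OUT : S_OUT := Pool.Agent.Q94.LS.out
theorem t_CR1S : S_CR1S := Pool.Agent.Q176.LS.cr1s
theorem t_CLA : S_CLA := Pool.Agent.Q181.LS.cla
theorem t_CLB : S_CLB := Pool.Agent.Q124.LS.clb t_BAS
theorem t_CTS : S_CTS := Pool.Agent.Q151.LS.cts t_BAS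
theorem t_CUS : S_CUS := Pool.Agent.Q151.LS.cus t_BAS t_CPL
theorem t_NSP : S_NSP := Pool.Agent.Q252.LS.nsp
theorem t_CR2S : S_CR2S := Pool.Agent.Q79.LS.cr2s t_CLA t_CLB t_CTS t_CUS t_NSP
theorem t_BRG : S_BRG := Pool.Agent.Q79.LS.brg t_BAS t_ATL t_AUC
theorem t_EEN : S_EEN := Pool.Agent.Q176.LS.een Pool.Agent.Q176.LS.aan
theorem t_SH2N : S_SH2N := Pool.Agent.Q224.LS.sh2n t_BAS t_SH1
theorem t_MEANN : S_MEANN := Pool.Agent.Q31.LS.meann t_EEN t_SH2N t_BASE t_LOC t_COUNT t_TRF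
theorem t_LCN : S_LCN := Pool.Agent.Q252.LS.lcn t_BAS t_ATL t_AUN t_AUC t_LOCV
theorem t_SUMC : S_SUMC := Pool.Agent.Q224.LS.sumc t_LOC
theorem t_LOGA : S_LOGA := Pool.Agent.Q26.LS.loga
theorem t_LOGB : S_LOGB := Pool.Agent.Q79.LS.logb
theorem t_SHARES : S_SHARES := shares t_NSB t_RKR t_DEP t_CR1S t_CR2S t_BRG t_MEANN t_LCN t_SUMC

theorem t_GQ : S_GQ := Pool.Agent.Q176.GK.GQ.gq
theorem t_GN : S_GN := Pool.Agent.Q16.GK.GN.gn
theorem t_GC : S_GC := Pool.Agent.Q16.GK.GC.gc t_GQ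
theorem t_GS : S_GS := Pool.Agent.Q16.GK.GS.gs t_SPL t_GQ t_GN t_GC
theorem t_GNUM : S_GNUM := Pool.Agent.Q190.GK.gnum t_BAS t_LOCV t_GQ t_GC
theorem t_GLCN : S_GLCN := Pool.Agent.Q190.GK.glcn t_BAS t_AUN t_AUC t_GNUM
theorem t_GBRG : S_GBRG := Pool.Agent.Q18.GK.gbrg t_BAS t_AUC
theorem t_GCLS : S_GCLS := Pool.Agent.Q142.GK.gcls t_GQ t_GN t_GC t_GS
theorem t_GCR1 : S_GCR1 := Pool.Agent.Q142.GK.gcr1 t_GQ t_GN
theorem t_GCR2 : S_GCR2 := Pool.Agent.Q142.GK.gcr2 t_GCLS t_CTS t_CUS t_NSP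
theorem t_GRK : S_GRK := Pool.Agent.Q139.GK.grk t_GQ
theorem t_GFR : S_GFR := Pool.Agent.Q162.GK.gfr t_GN
theorem t_GFIN : S_GFIN := Pool.Agent.Q177.GK.gfin t_GN
theorem t_GAB : S_GAB := Pool.Agent.Q129.GK.GAB.gab Pool.Agent.Q153.GK.gab1 t_GQ t_GN
theorem t_SHAREG : S_SHAREG := sharesG t_NSB t_GRK t_GFR t_GCR1 t_GCR2 t_GBRG t_MEANN t_GLCN t_SUMC

end Pool.Agent.H575.GK
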