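import Pool.Agent.H575.GK.All

set_option autoImplicit false
set_option linter.unusedSectionVars false

/-!
# Projects LS and GK: the means (after `sharesG`, `shares` of helper7)
-/

namespace Pool.Agent.H575.GK

open NumberField IsDedekindDomain Filter Topology Finset
open Pool.Agent.Q283.LQ (Sm Box Nest nS)
open Pool.Agent.Q7.LK
open Pool.Agent.Q7.LS (Ab Un nmU SUn NS IsBas LocN ManyX Ens Ao cX sX dT OutMS AX gp)
open Pool.Agent.Q7.GK
open Pool.Agent.W289.SL (IsIwasawaLog)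

open Classical in
/-- The mean of `p ^ τ - 1`, `(p - 1) (r + τ - 1) < number of the relations`. -/
theorem meanG (p : ℕ) [Fact p.Prime] (hp : p ≠ 2) (Lg : ℂ_[p] → ℂ_[p]) (hL : IsIwasawaLog p Lg)
    (F : Type) [Field F] [NumberField F] (ζ : F) (hζ : IsPrimitiveRoot ζ p) :
    ∃ y0 : ℕ, ∀ y, y0 ≤ y → ∀ G : Set (HeightOneSpectrum (𝓞 F)), (∀ v ∈ G, Dp p v) →
      G.Finite → ∀ D0 : F, D0 ≠ 0 → ∀ ε : ℝ, 0 < ε →
      ∃ k0 : ℕ, ∀ k, k0 ≤ k → ∀ z : Fin k → ZMod p, (∀ i, z i ≠ 0) → Nest k fun X =>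
        (Box y X : Set (Fin k → HeightOneSpectrum (𝓞 F))).Finite ∧ 0 < ((Ens p y D0 z X).ncard : ℝ) ∧
        ∀ (B : Finset (Fin k → HeightOneSpectrum (𝓞 F))) (τ : (Fin k → HeightOneSpectrum (𝓞 F)) → ℕ),
          (∀ q ∈ B, q ∈ Ens p y D0 z X ∧ 1 ≤ τ q ∧ ∃ D, Fits p y D0 z q D ∧
            ∃ (L : Type) (_ : Field L) (_ : NumberField L) (_ : Algebra F L), Kum p F L D ∧
              OutMG L Lg G ((p - 1) * (InfinitePlace.nrComplexPlaces F + τ q - 1) + 1)) →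
          ∑ q ∈ B, ((p : ℝ) ^ τ q - 1) ≤ ((1 / (p : ℝ)) ^ InfinitePlace.nrComplexPlaces F + ε) *
            ((Ens p y D0 z X).ncard : ℝ) := by
  have hpp : p.Prime := Fact.out
  have hp1 : (1 : ℝ) < p := by exact_mod_cast hpp.one_lt
  have hp0 : (p : ℝ) ≠ 0 := by positivity
  obtain ⟨y0, hy0⟩ := t_MEANN p hp F ζ hζ
  refine ⟨max y0 p, fun y hy G hG hGf D0 hD0 ε hε => ?_⟩
  have hyp : p ≤ y := (le_max_right _ _).trans hy
  have hloc := t_GLCN p hp Lg hL F ζ hζ y hyp G hG D0 hD0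
  have hsum := t_SUMC p hp F ζ hζ y hyp ∅ ∅ (fun v hv => absurd hv (Set.notMem_empty v)) (Set.disjoint_empty _)
    (fun v hv => absurd hv (Set.notMem_empty v)) D0 hD0
  have hsX : sX p (∅ : Set (HeightOneSpectrum (𝓞 F))) D0 = 0 := by
    unfold sX
    rw [show {v : HeightOneSpectrum (𝓞 F) | v ∈ (∅ : Set (HeightOneSpectrum (𝓞 F))) ∧ Lpw p v D0} = ∅ by
      ext v
      simp]
    exact Set.ncard_empty _
  rw [hsX] at hsum
  obtain ⟨k0, hk0⟩ := hy0 y ((le_max_left _ _).trans hy) D0 hD0 _ _ hloc ε hε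
  refine ⟨max k0 1, fun k hk z hz => nest_mono k _ _ (fun X hX => ?_) (hk0 k ((le_max_left _ _).trans hk) z hz)⟩
  have hk1 : 1 ≤ k := (le_max_right _ _).trans hk
  obtain ⟨hfin, hpos, hN⟩ := hX
  refine ⟨hfin, hpos, fun Bd τ hBd => ?_⟩
  set r := InfinitePlace.nrComplexPlaces F with hr
  set C := ∑ᶠ v, cX p y ∅ ∅ D0 v with hC
  set E := Ens p y D0 z X with hE
  have hEf : E.Finite := hfin.subset fun q hq => hq.1
  have hBdE : ∀ q ∈ Bd, q ∈ E := fun q hq => (hBd q hq).1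
  have hpp1 : 0 < p - 1 := Nat.sub_pos_of_lt hpp.one_lt
  -- the bad `q`
  have hbad : ∀ q ∈ Bd, ∃ D, Fits p y D0 z q D ∧
      ManyX p y (fun v a => AXG Lg G D0 v a) D (p ^ (r + τ q) - 1) := by
    intro q hqB
    obtain ⟨hq, ht, D, hD, L, i1, i2, i3, hK, ho⟩ := hBd q hqB
    refine ⟨D, hD, many_of_outG t_GCR1 t_GCR2 t_GBRG hp hL hζ hyp hG hD0 hD (fits_not_pow hq.1 hk1 hz hD) hK ho ?_⟩
    obtain ⟨w, hw⟩ : ∃ w, r + τ q = w + 1 := ⟨r + τ q - 1, by omega⟩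
    rw [hw, Nat.add_sub_cancel, Nat.mul_add, mul_one]
    omega
  -- all `q`
  have hall : ∀ q ∈ E, ∃ D, Fits p y D0 z q D ∧ ManyX p y (fun v a => AXG Lg G D0 v a) D (p ^ r - 1) := by
    rintro q ⟨hq, D, hD⟩
    refine ⟨D, hD, ?_⟩
    have hnp := fits_not_pow hq hk1 hz hD
    obtain ⟨L, i1, i2, i3, hK, _⟩ := Pool.Agent.Q150.LK.exists_kumfield hζ hnp
    have ho : OutMG L Lg G ((p - 1) * r) := by
      refine out_of_rankG t_NSB t_GRK hp hL hζ hK hnp hG hGf (t_GFR p hp Lg hL F L ζ D hζ hK hnp G hG) ?_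
      rw [← add_assoc, ← Nat.mul_add]
    refine many_of_outG t_GCR1 t_GCR2 t_GBRG hp hL hζ hyp hG hD0 hD hnp hK ho ?_
    omega
  -- the mean
  have hmean := hN hEf.toFinset (fun q => if q ∈ Bd then p ^ (r + τ q) - 1 else p ^ r - 1)
    (fun q hq => hEf.mem_toFinset.mp hq) (fun q hq => by
      by_cases h : q ∈ Bd
      · simp only [h, if_true]
        exact hbad q h
      · simp only [h, if_false]
        exact hall q (hEf.mem_toFinset.mp hq))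
  have hsumN : (∑ q ∈ hEf.toFinset, ((if q ∈ Bd then p ^ (r + τ q) - 1 else p ^ r - 1 : ℕ) : ℝ)) =
      (p : ℝ) ^ r * (∑ q ∈ Bd, ((p : ℝ) ^ τ q - 1)) + (E.ncard : ℝ) * ((p : ℝ) ^ r - 1) := by
    have h1 : ∀ q : Fin k → HeightOneSpectrum (𝓞 F), ((if q ∈ Bd then p ^ (r + τ q) - 1 else p ^ r - 1 : ℕ) : ℝ) =
        (if q ∈ Bd then (p : ℝ) ^ r * ((p : ℝ) ^ τ q - 1) else 0) + ((p : ℝ) ^ r - 1) := by
      intro q
      have h2 : ∀ j : ℕ, ((p ^ j - 1 : ℕ) : ℝ) = (p : ℝ) ^ j - 1 := by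
        intro j
        rw [Nat.cast_sub (Nat.one_le_pow _ _ hpp.pos)]
        push_cast
        ring
      split_ifs
      · rw [h2, pow_add]
        ring
      · rw [h2]
        ring
    simp_rw [h1]
    rw [Finset.sum_add_distrib, Finset.sum_const, nsmul_eq_mul, ← Set.ncard_eq_toFinset_card E hEf,
      ← Finset.sum_filter, Finset.mul_sum]
    congr 1
    refine Finset.sum_congr ?_ (fun _ _ => rfl)
    ext q
    simp only [Finset.mem_filter, Set.Finite.mem_toFinset]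
    exact ⟨fun h => h.2, fun h => ⟨hBdE q h, h⟩⟩
  rw [hsumN] at hmean
  -- the exponent
  have hμ : (p : ℝ) ^ C * (1 / (p : ℝ)) ^ r ≤ (p : ℝ) ^ r := by
    have h1 : C ≤ 2 * r := by omega
    calc (p : ℝ) ^ C * (1 / (p : ℝ)) ^ r ≤ (p : ℝ) ^ (2 * r) * (1 / (p : ℝ)) ^ r :=
          mul_le_mul_of_nonneg_right (pow_le_pow_right₀ hp1.le h1) (by positivity)
      _ = (p : ℝ) ^ r := by
          rw [two_mul, pow_add, mul_assoc, ← mul_pow, mul_one_div_cancel hp0, one_pow, mul_one]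
  -- the conclusion
  have hEpos : (0 : ℝ) ≤ (E.ncard : ℝ) := by positivity
  have hkey : (p : ℝ) ^ r * (∑ q ∈ Bd, ((p : ℝ) ^ τ q - 1)) ≤ (1 + ε) * (E.ncard : ℝ) := by
    have h5 := mul_le_mul_of_nonneg_right hμ hEpos
    linarith
  have h9 : (∑ q ∈ Bd, ((p : ℝ) ^ τ q - 1)) =
      (1 / (p : ℝ)) ^ r * ((p : ℝ) ^ r * (∑ q ∈ Bd, ((p : ℝ) ^ τ q - 1))) := by
    have h10 : (1 / (p : ℝ)) ^ r * (p : ℝ) ^ r = 1 := by
      rw [← mul_pow, one_div_mul_cancel hp0, one_pow]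
    rw [← mul_assoc, h10, one_mul]
  have h8 : (∑ q ∈ Bd, ((p : ℝ) ^ τ q - 1)) ≤ (1 / (p : ℝ)) ^ r * ((1 + ε) * (E.ncard : ℝ)) := by
    rw [h9]
    exact mul_le_mul_of_nonneg_left hkey (by positivity)
  have h11 : (1 / (p : ℝ)) ^ r ≤ 1 := pow_le_one₀ (by positivity) (by
    rw [div_le_one (by linarith)]
    exact hp1.le)
  refine h8.trans ?_
  have h12 : (1 / (p : ℝ)) ^ r * (ε * (E.ncard : ℝ)) ≤ 1 * (ε * (E.ncard : ℝ)) :=
    mul_le_mul_of_nonneg_right h11 (by positivity)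
  linarith

end Pool.Agent.H575.GK
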