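import Pool.Agent.H575.GK.Rank

set_option autoImplicit false
set_option linter.unusedSectionVars false

/-!
# The product formula: the rank of Gross' matrix is at most `g - 1`
-/

namespace Pool.Agent.H575.GK

open NumberField IsDedekindDomain Filter Topology Finset
open Pool.Agent.Q7.LK
open Pool.Agent.Q7.LS (Ab Un nmU SUn NS sX)
open Pool.Agent.Q7.GK
open Pool.Agent.W289.SL (IsIwasawaLog)

section

variable {p : ℕ} [Fact p.Prime] {K : Type} [Field K] [NumberField K]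

theorem Lg_one {Lg : ℂ_[p] → ℂ_[p]} (hL : IsIwasawaLog p Lg) : Lg 1 = 0 := by
  have h := hL.mul 1 1 one_ne_zero one_ne_zero
  rw [mul_one] at h
  exact left_eq_add.1 h

theorem Lg_neg_one {Lg : ℂ_[p] → ℂ_[p]} (hL : IsIwasawaLog p Lg) : Lg (-1) = 0 := by
  have h := hL.mul (-1) (-1) (by norm_num) (by norm_num)
  rw [show (-1 : ℂ_[p]) * -1 = 1 by norm_num, Lg_one hL] at h
  have h2 : (2 : ℂ_[p]) * Lg (-1) = 0 := by
    rw [two_mul]
    exact h.symm
  exact (mul_eq_zero.1 h2).resolve_left two_ne_zero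

theorem Lg_npow {Lg : ℂ_[p] → ℂ_[p]} (hL : IsIwasawaLog p Lg) (n : ℕ) : Lg ((p : ℂ_[p]) ^ n) = 0 := by
  have hp0 : (p : ℂ_[p]) ≠ 0 := Nat.cast_ne_zero.2 (Fact.out : p.Prime).ne_zero
  induction n with
  | zero => rw [pow_zero, Lg_one hL]
  | succ n ih => rw [pow_succ, hL.mul _ _ (pow_ne_zero _ hp0) hp0, ih, hL.prime, add_zero]

/-- an integer which divides a power of `p` -/
theorem Lg_int {Lg : ℂ_[p] → ℂ_[p]} (hL : IsIwasawaLog p Lg) {a b : ℤ} {n : ℕ} (h : a * b = (p : ℤ) ^ n) :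
    Lg (a : ℂ_[p]) = 0 := by
  have hpp : p.Prime := Fact.out
  have h1 : a ∣ (p : ℤ) ^ n := ⟨b, h.symm⟩
  have h2 : a.natAbs ∣ p ^ n := by
    have := Int.natAbs_dvd_natAbs.2 h1
    rwa [Int.natAbs_pow, Int.natAbs_natCast] at this
  obtain ⟨j, _, hj⟩ := (Nat.dvd_prime_pow hpp).1 h2
  rcases Int.natAbs_eq a with h3 | h3
  · rw [h3, hj]
    push_cast
    exact Lg_npow hL j
  · rw [h3, hj]
    push_cast
    have hp0 : (p : ℂ_[p]) ≠ 0 := Nat.cast_ne_zero.2 hpp.ne_zero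
    rw [← neg_one_mul, hL.mul _ _ (by norm_num) (pow_ne_zero _ hp0), Lg_neg_one hL, Lg_npow hL, add_zero]

/-- a multiple by a power of `p` of a `p`-unit is integral -/
theorem exists_integral {x : K} (hx : PU p x) : ∃ n₀ : ℕ, ∀ n, n₀ ≤ n → ∃ a : 𝓞 K, (a : K) = (p : K) ^ n * x := by
  have hpp : p.Prime := Fact.out
  have hp0 : (p : K) ≠ 0 := Nat.cast_ne_zero.2 hpp.ne_zero
  have h1 : ∀ P : HeightOneSpectrum (𝓞 K), ∃ n₀ : ℕ, ∀ n, n₀ ≤ n → P ∈ Pr p K →
      P.valuation K ((p : K) ^ n * x) ≤ 1 := by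
    intro P
    by_cases hP : P ∈ Pr p K
    · have hv : P.valuation K (p : K) < 1 := by
        rw [show (p : K) = algebraMap (𝓞 K) K (p : 𝓞 K) by rw [map_natCast]]
        exact (HeightOneSpectrum.valuation_lt_one_iff_mem P _).2 hP
      have hv0 : P.valuation K (p : K) ≠ 0 := (Valuation.ne_zero_iff _).2 hp0
      have hx0 : P.valuation K x ≠ 0 := (Valuation.ne_zero_iff _).2 hx.1
      obtain ⟨m, hm⟩ : ∃ m : ℤ, P.valuation K x = WithZero.exp m :=
        ⟨WithZero.log (P.valuation K x), (WithZero.exp_log hx0).symm⟩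
      obtain ⟨e, he⟩ : ∃ e : ℤ, P.valuation K (p : K) = WithZero.exp e :=
        ⟨WithZero.log (P.valuation K (p : K)), (WithZero.exp_log hv0).symm⟩
      have he1 : e < 0 := by
        rw [he, ← WithZero.exp_zero, WithZero.exp_lt_exp] at hv
        exact hv
      refine ⟨m.toNat, fun n hn _ => ?_⟩
      rw [map_mul, map_pow, hm, he, ← WithZero.exp_nsmul, ← WithZero.exp_add, ← WithZero.exp_zero,
        WithZero.exp_le_exp, nsmul_eq_mul]
      have h2 : (m.toNat : ℤ) ≤ n := by exact_mod_cast hn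
      have h3 : m ≤ m.toNat := Int.self_le_toNat m
      have h4 : (n : ℤ) * e ≤ -n := by nlinarith
      linarith
    · exact ⟨0, fun n _ h => absurd h hP⟩
  choose N hN using h1
  have hfin : (Pr p K).Finite := pr_finite
  refine ⟨∑ P ∈ hfin.toFinset, N P, fun n hn => ?_⟩
  have h2 : ∀ P : HeightOneSpectrum (𝓞 K), P.valuation K ((p : K) ^ n * x) ≤ 1 := by
    intro P
    by_cases hP : P ∈ Pr p K
    · refine hN P n (le_trans ?_ hn) hP
      exact Finset.single_le_sum (f := N) (fun _ _ => Nat.zero_le _) (hfin.mem_toFinset.2 hP)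
    · rw [map_mul, hx.2 P hP, mul_one, map_pow]
      refine pow_le_one₀ zero_le ?_
      rw [show (p : K) = algebraMap (𝓞 K) K (p : 𝓞 K) by rw [map_natCast]]
      exact HeightOneSpectrum.valuation_le_one P _
  obtain ⟨a, ha⟩ := HeightOneSpectrum.mem_integers_of_valuation_le_one K _ h2
  exact ⟨a, ha⟩

theorem PU.inv {x : K} (hx : PU p x) : PU p x⁻¹ :=
  ⟨inv_ne_zero hx.1, fun P hP => by rw [map_inv₀, hx.2 P hP, inv_one]⟩

/-- the norm of a `p`-unit has the logarithm `0` -/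
theorem Lg_norm {Lg : ℂ_[p] → ℂ_[p]} (hL : IsIwasawaLog p Lg) {x : K} (hx : PU p x) :
    Lg ((Algebra.norm ℚ x : ℚ) : ℂ_[p]) = 0 := by
  have hpp : p.Prime := Fact.out
  have hp0 : (p : K) ≠ 0 := Nat.cast_ne_zero.2 hpp.ne_zero
  obtain ⟨n1, h1⟩ := exists_integral hx
  obtain ⟨n2, h2⟩ := exists_integral hx.inv
  obtain ⟨a, ha⟩ := h1 (max n1 n2) (le_max_left _ _)
  obtain ⟨b, hb⟩ := h2 (max n1 n2) (le_max_right _ _)
  set n := max n1 n2 with hn
  have hab : a * b = (p : 𝓞 K) ^ (2 * n) := by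
    apply FaithfulSMul.algebraMap_injective (𝓞 K) K
    rw [map_mul, map_pow, map_natCast]
    change (a : K) * (b : K) = _
    rw [ha, hb, two_mul, pow_add, mul_mul_mul_comm, mul_inv_cancel₀ hx.1, mul_one]
  have hN : Algebra.norm ℤ a * Algebra.norm ℤ b = (p : ℤ) ^ (Module.finrank ℚ K * (2 * n)) := by
    rw [← map_mul, hab, map_pow]
    have h3 : Algebra.norm ℤ (p : 𝓞 K) = (p : ℤ) ^ Module.finrank ℚ K := by
      have h4 := Algebra.norm_algebraMap (R := ℤ) (S := 𝓞 K) (p : ℤ)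
      rw [RingOfIntegers.rank] at h4
      rw [← h4]
      congr 1
      simp
    rw [h3, ← pow_mul]
  have hLa := Lg_int hL hN
  have h5 : ((Algebra.norm ℤ a : ℤ) : ℚ) = (p : ℚ) ^ (Module.finrank ℚ K * n) * Algebra.norm ℚ x := by
    rw [Algebra.coe_norm_int, ha, map_mul, map_pow]
    congr 1
    have h6 := Algebra.norm_algebraMap (R := ℚ) (S := K) (p : ℚ)
    rw [map_natCast] at h6
    rw [h6, ← pow_mul]
  have hNx : Algebra.norm ℚ x ≠ 0 := by
    rw [Ne, Algebra.norm_eq_zero_iff]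
    exact hx.1
  have h7 : ((Algebra.norm ℤ a : ℤ) : ℂ_[p]) =
      (p : ℂ_[p]) ^ (Module.finrank ℚ K * n) * ((Algebra.norm ℚ x : ℚ) : ℂ_[p]) := by
    have := congrArg (fun q : ℚ => (q : ℂ_[p])) h5
    push_cast at this
    exact this
  rw [h7, hL.mul _ _ (pow_ne_zero _ (Nat.cast_ne_zero.2 hpp.ne_zero)) (by exact_mod_cast hNx), Lg_npow hL,
    zero_add] at hLa
  exact hLa

/-- the product formula -/
theorem sum_lam {Lg : ℂ_[p] → ℂ_[p]} (hL : IsIwasawaLog p Lg) {x : K} (hx : PU p x) :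
    ∑ P ∈ (pr_finite (p := p) (K := K)).toFinset, lam Lg P x = 0 := by
  classical
  obtain ⟨hGN, _⟩ := t_GN p Lg hL ℚ K
  have hzero : ∀ v : HeightOneSpectrum (𝓞 ℚ), lam Lg v (Algebra.norm ℚ x : ℚ) = 0 := by
    intro v
    unfold lam
    refine Finset.sum_eq_zero fun σ _ => ?_
    split_ifs
    · rw [eq_ratCast σ]
      exact Lg_norm hL hx
    · rfl
  rw [← Finset.sum_fiberwise_of_maps_to (g := fun P : HeightOneSpectrum (𝓞 K) => P.under (𝓞 ℚ))
    (t := (pr_finite (p := p) (K := ℚ)).toFinset) (fun P hP => by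
      rw [Set.Finite.mem_toFinset] at hP ⊢
      exact (mem_pr_iff (F := ℚ) P).1 hP)]
  refine Finset.sum_eq_zero fun v hv => ?_
  rw [Set.Finite.mem_toFinset] at hv
  obtain ⟨A, hA, hs⟩ := hGN v hv
  rw [← hzero v, ← hs x hx.1]
  refine Finset.sum_congr ?_ (fun _ _ => rfl)
  ext P
  rw [Finset.mem_filter, Set.Finite.mem_toFinset, hA, Pool.Agent.Q223.LS.ab_iff]
  constructor
  · exact fun h => h.2
  · intro h
    refine ⟨(mem_pr_iff (F := ℚ) P).2 ?_, h⟩
    rw [h]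
    exact hv

theorem exists_pr : (Pr p K).Nonempty := by
  have hpp : p.Prime := Fact.out
  have h1 : (p : 𝓞 K) ≠ 0 := Nat.cast_ne_zero.2 hpp.ne_zero
  have h2 : Ideal.span {(p : 𝓞 K)} ≠ ⊤ := by
    intro h
    have h3 : Ideal.absNorm (Ideal.span {(p : 𝓞 K)}) = p ^ Module.finrank ℚ K := by
      rw [Ideal.absNorm_span_singleton]
      have h4 := Algebra.norm_algebraMap (R := ℤ) (S := 𝓞 K) (p : ℤ)
      rw [RingOfIntegers.rank] at h4
      rw [show (p : 𝓞 K) = algebraMap ℤ (𝓞 K) (p : ℤ) by simp, h4, Int.natAbs_pow, Int.natAbs_natCast]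
    rw [h, Ideal.absNorm_top] at h3
    have h5 : 1 < p ^ Module.finrank ℚ K := Nat.one_lt_pow Module.finrank_pos.ne' hpp.one_lt
    omega
  obtain ⟨M, hM, hle⟩ := Ideal.exists_le_maximal _ h2
  have h3 : (p : 𝓞 K) ∈ M := hle (Ideal.mem_span_singleton_self _)
  have h4 : M ≠ ⊥ := by
    rintro rfl
    exact h1 ((Ideal.mem_bot).1 h3)
  exact ⟨⟨M, hM.isPrime, h4⟩, h3⟩

/-- the rank is at most `g - 1` -/
theorem rk_lt {Lg : ℂ_[p] → ℂ_[p]} (hL : IsIwasawaLog p Lg) : rk Lg K + 1 ≤ (Pr p K).ncard := by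
  classical
  have hft : Fintype (Pr p K) := Fintype.ofFinite _
  let φ : (Pr p K → ℂ_[p]) →ₗ[ℂ_[p]] ℂ_[p] :=
    { toFun := fun f => ∑ P, f P
      map_add' := fun f g => by
        simp only [Pi.add_apply]
        exact Finset.sum_add_distrib
      map_smul' := fun c f => by
        simp only [Pi.smul_apply, smul_eq_mul, RingHom.id_apply, Finset.mul_sum] }
  have h1 : Submodule.span ℂ_[p] (vecs Lg K) ≤ LinearMap.ker φ := by
    rw [Submodule.span_le]
    rintro f ⟨x, hx, hf⟩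
    change φ f = 0
    change ∑ P, f P = 0
    rw [Finset.sum_congr rfl (fun P _ => hf P)]
    have h2 := sum_lam hL hx
    rw [← h2]
    rw [← Finset.sum_coe_sort (pr_finite (p := p) (K := K)).toFinset]
    refine Fintype.sum_equiv (Equiv.subtypeEquivRight fun P => by
      rw [Set.Finite.mem_toFinset]) _ _ (fun P => rfl)
  have h3 : φ ≠ 0 := by
    obtain ⟨P, hP⟩ := exists_pr (p := p) (K := K)
    intro h
    have h4 : φ (Pi.single (⟨P, hP⟩ : Pr p K) 1) = 1 := by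
      change ∑ Q, (Pi.single (⟨P, hP⟩ : Pr p K) (1 : ℂ_[p]) : Pr p K → ℂ_[p]) Q = 1
      rw [Finset.sum_pi_single']
      simp
    rw [h, LinearMap.zero_apply] at h4
    exact zero_ne_one h4
  have h4 : LinearMap.ker φ ≠ ⊤ := fun h => h3 (LinearMap.ker_eq_top.1 h)
  have h5 := Submodule.finrank_lt (lt_top_iff_ne_top.2 h4).ne
  rw [Module.finrank_fintype_fun_eq_card] at h5
  have h6 := Submodule.finrank_mono h1
  have h7 : (Pr p K).ncard = Fintype.card (Pr p K) := by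
    rw [Set.ncard_eq_toFinset_card', Set.toFinset_card]
  unfold rk
  omega

end

end Pool.Agent.H575.GK
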