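import Pool.Agent.H575.GK.Mean

set_option autoImplicit false
set_option linter.unusedSectionVars false

/-!
# The rank of Gross' matrix
-/

namespace Pool.Agent.H575.GK

open NumberField IsDedekindDomain Filter Topology Finset
open Pool.Agent.Q7.LK
open Pool.Agent.Q7.LS (Ab Un nmU SUn NS sX)
open Pool.Agent.Q7.GK
open Pool.Agent.W289.SL (IsIwasawaLog)

/-- the dimension of a span -/
theorem le_finrank_span_iff {k V : Type} [Field k] [AddCommGroup V] [Module k V] [FiniteDimensional k V]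
    (S : Set V) (R : ℕ) : R ≤ Module.finrank k (Submodule.span k S) ↔
      ∃ f : Fin R → V, (∀ i, f i ∈ S) ∧ LinearIndependent k f := by
  constructor
  · intro h
    obtain ⟨b, hbS, hbs, hbl⟩ := exists_linearIndependent k S
    have hfin : Finite b := hbl.finite
    have hft : Fintype b := Fintype.ofFinite b
    have h1 : Module.finrank k (Submodule.span k S) = Fintype.card b := by
      rw [← hbs]
      have := finrank_span_eq_card hbl
      rwa [Subtype.range_coe] at this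
    rw [h1] at h
    obtain ⟨e⟩ : Nonempty (Fin R ↪ b) := by
      rw [← Fintype.card_fin R] at h
      exact Function.Embedding.nonempty_of_card_le h
    exact ⟨fun i => (e i : V), fun i => hbS (e i).2, hbl.comp e e.injective⟩
  · rintro ⟨f, hf, hl⟩
    have h1 : LinearIndependent k (fun i => (⟨f i, Submodule.subset_span (hf i)⟩ : Submodule.span k S)) := by
      apply LinearIndependent.of_comp (Submodule.span k S).subtype
      exact hl
    have h2 := h1.fintype_card_le_finrank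
    rwa [Fintype.card_fin] at h2

section

variable {p : ℕ} [Fact p.Prime] {K : Type} [Field K] [NumberField K]

/-- the primes above `p` -/
abbrev Pr (p : ℕ) (K : Type) [Field K] [NumberField K] : Set (HeightOneSpectrum (𝓞 K)) := {P | (p : 𝓞 K) ∈ P.asIdeal}

theorem pr_finite : (Pr p K).Finite :=
  Pool.Agent.Q177.GK.fin_dp (Fact.out : p.Prime).ne_zero

instance : Finite (Pr p K) := pr_finite

/-- a `p`-unit -/
def PU (p : ℕ) (x : K) : Prop := x ≠ 0 ∧ ∀ P : HeightOneSpectrum (𝓞 K), P ∉ Pr p K → P.valuation K x = 1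

/-- the vectors of the `p`-units -/
def vecs (Lg : ℂ_[p] → ℂ_[p]) (K : Type) [Field K] [NumberField K] : Set (Pr p K → ℂ_[p]) :=
  {f | ∃ x : K, PU p x ∧ ∀ P : Pr p K, f P = lam Lg P.1 x}

/-- the rank of Gross' matrix -/
noncomputable def rk (Lg : ℂ_[p] → ℂ_[p]) (K : Type) [Field K] [NumberField K] : ℕ :=
  Module.finrank ℂ_[p] (Submodule.span ℂ_[p] (vecs Lg K))

variable {F : Type} [Field F] [NumberField F] {L : Type} [Field L] [NumberField L] [Algebra F L]

theorem mem_pr_iff (P : HeightOneSpectrum (𝓞 L)) : P ∈ Pr p L ↔ P.under (𝓞 F) ∈ Pr p F := by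
  constructor
  · intro h
    change (p : 𝓞 F) ∈ (P.under (𝓞 F)).asIdeal
    change algebraMap (𝓞 F) (𝓞 L) (p : 𝓞 F) ∈ P.asIdeal
    rw [map_natCast]
    exact h
  · intro h
    have h1 : algebraMap (𝓞 F) (𝓞 L) (p : 𝓞 F) ∈ P.asIdeal := h
    rw [map_natCast] at h1
    exact h1

theorem mem_SUn_pr (x : Lˣ) : x ∈ SUn L (Pr p F) ↔ PU p (x : L) := by
  rw [Pool.Agent.Q223.LS.mem_SUn]
  constructor
  · intro h
    exact ⟨x.ne_zero, fun P hP => h P (fun h1 => hP ((mem_pr_iff (F := F) P).2 h1))⟩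
  · intro h P hP
    exact h.2 P (fun h1 => hP ((mem_pr_iff (F := F) P).1 h1))

theorem le_rk_iff (Lg : ℂ_[p] → ℂ_[p]) (R : ℕ) :
    R ≤ rk Lg L ↔ IndG Lg (Pr p F) (SUn L (Pr p F)) R := by
  have : Fintype (Pr p L) := Fintype.ofFinite _
  unfold rk
  rw [le_finrank_span_iff]
  constructor
  · rintro ⟨f, hf, hl⟩
    choose x hx using hf
    refine ⟨fun i => Units.mk0 (x i) (hx i).1.1, fun i => (mem_SUn_pr (F := F) _).2 (hx i).1, fun a ha => ?_⟩
    rw [Fintype.linearIndependent_iff] at hl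
    funext i
    refine hl a ?_ i
    funext P
    rw [Finset.sum_apply, Pi.zero_apply]
    have h1 := ha (P.1.under (𝓞 F)) ((mem_pr_iff (F := F) P.1).1 P.2) P.1
      ((Pool.Agent.Q223.LS.ab_iff _ _).2 rfl)
    rw [← h1]
    refine Finset.sum_congr rfl fun i _ => ?_
    rw [Pi.smul_apply, smul_eq_mul, (hx i).2 P]
    rfl
  · rintro ⟨ε, hε, hi⟩
    refine ⟨fun i P => lam Lg P.1 ((ε i : Lˣ) : L), fun i => ⟨ε i, (mem_SUn_pr (F := F) _).1 (hε i), fun P => rfl⟩, ?_⟩
    rw [Fintype.linearIndependent_iff]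
    intro a ha
    have h1 : a = 0 := by
      apply hi a
      intro v hv P hP
      have h2 : P ∈ Pr p L := (mem_pr_iff (F := F) P).2 (by
        rw [(Pool.Agent.Q223.LS.ab_iff _ _).1 hP]
        exact hv)
      have h3 := congrFun ha ⟨P, h2⟩
      rw [Finset.sum_apply, Pi.zero_apply] at h3
      rw [← h3]
      rfl
    intro i
    rw [h1]
    rfl

/-- few new relations: the defect does not grow much -/
theorem rk_ge (hp : p ≠ 2) {Lg : ℂ_[p] → ℂ_[p]} (hL : IsIwasawaLog p Lg) {ζ d : F}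
    (hζ : IsPrimitiveRoot ζ p) (hK : Kum p F L d) (hd : ¬ IsPow p d) {t : ℕ} (ht : 1 ≤ t)
    (hO : ¬ OutMG L Lg (Pr p F) ((p - 1) * (InfinitePlace.nrComplexPlaces F + t - 1) + 1)) :
    rk Lg F + (Pr p L).ncard ≤ rk Lg L + (Pr p F).ncard + (p - 1) * (t - 1) := by
  set s := sX p (Pr p F) d with hs
  have hG : ∀ v ∈ Pr p F, Dp p v := fun v hv => hv
  obtain ⟨h1, h2⟩ := t_GFIN p hp Lg hL F L ζ d hζ hK hd (Pr p F) hG
  have hI : IndG Lg (Pr p F) (NS L (Pr p F)) ((p - 1) * (s + 1 - t)) := by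
    rcases le_or_gt t (s + 1) with hts | hts
    · by_contra hc
      refine hO (out_of_rankG t_NSB t_GRK hp hL hζ hK hd hG pr_finite hc ?_)
      rw [← hs]
      obtain ⟨w, hw⟩ : ∃ w, s + 1 = t + w := ⟨s + 1 - t, by omega⟩
      have h3 : (p - 1) * (InfinitePlace.nrComplexPlaces F + t - 1) + (p - 1) * (s + 1 - t) =
          (p - 1) * (InfinitePlace.nrComplexPlaces F + s) := by
        rw [← Nat.mul_add]
        congr 1
        omega
      omega
    · have h4 : s + 1 - t = 0 := by omega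
      rw [h4, mul_zero]
      exact ⟨fun i => i.elim0, fun i => i.elim0, fun a _ => Subsingleton.elim _ _⟩
  have h5 := h1 _ _ hI ((le_rk_iff (F := F) (L := F) Lg (rk Lg F)).1 le_rfl)
  have h6 := (le_rk_iff (F := F) (L := L) Lg _).2 h5
  have h7 : (Pr p L).ncard ≤ (Pr p F).ncard + (p - 1) * s := h2
  have h8 : (p - 1) * s ≤ (p - 1) * (s + 1 - t) + (p - 1) * (t - 1) := by
    rw [← Nat.mul_add]
    exact Nat.mul_le_mul_left _ (by omega)
  omega

/-- the Gross–Kuz'min conjecture for abelian fields -/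
theorem gk_abelian (hp : p ≠ 2) {Lg : ℂ_[p] → ℂ_[p]} (hL : IsIwasawaLog p Lg) (h1 : IsGalois ℚ K)
    (h2 : ∀ g h : K ≃ₐ[ℚ] K, g * h = h * g) : (Pr p K).ncard ≤ rk Lg K + 1 := by
  obtain ⟨ε, hε, hi⟩ := t_GAB p hp Lg hL K h1 h2
  have h3 : (Pr p K).ncard - 1 ≤ rk Lg K := by
    rw [le_rk_iff (F := K) (L := K)]
    refine ⟨ε, fun i => (mem_SUn_pr (F := K) _).2 ⟨(ε i).ne_zero, fun P hP => hε i P hP⟩, fun a ha => hi a ?_⟩
    intro P hP
    exact ha P hP P (Pool.Agent.Q177.GK.ab_refl P)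
  omega

end

end Pool.Agent.H575.GK
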